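import Pool.Agent.ABC3.Stmts

/-!
# Row BZE of squad ABC3
-/

set_option autoImplicit false

namespace Pool.Agent.ABC3.H53

open Matrix Pool.Agent.ABC3

theorem finrank_inf_ker {K Q : Type} [Field K] [AddCommGroup Q] [Module K Q]
    [FiniteDimensional K Q] (P : Submodule K Q) (f : Q →ₗ[K] K) (q : Q) (hq : q ∈ P)
    (h1 : f q = 1) :
    Module.finrank K P = Module.finrank K (P ⊓ LinearMap.ker f : Submodule K Q) + 1 := by
  have hsup : P ⊔ LinearMap.ker f = ⊤ := by
    rw [eq_top_iff]
    intro x _
    have hx : x = f x • q + (x - f x • q) := by abel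
    rw [hx]
    refine Submodule.add_mem_sup (P.smul_mem _ hq) ?_
    rw [LinearMap.mem_ker, map_sub, map_smul, h1, smul_eq_mul, mul_one, sub_self]
  have hrange : LinearMap.range f = ⊤ := by
    rw [LinearMap.range_eq_top]
    intro y
    exact ⟨y • q, by rw [map_smul, h1, smul_eq_mul, mul_one]⟩
  have h2 := Submodule.finrank_sup_add_finrank_inf_eq P (LinearMap.ker f)
  have h3 := LinearMap.finrank_range_add_finrank_ker f
  rw [hrange, finrank_top, Module.finrank_self] at h3
  rw [hsup, finrank_top] at h2
  omega

section basic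
variable {K Q B : Type} [Field K] [AddCommGroup Q] [Module K Q] [Fintype B] [DecidableEq B]

theorem homV_mulVec {deg : B → ℤ} {k d : ℤ} {M : Matrix B B K} {v : B → K}
    (hM : HasDeg deg k M) (hv : HomV deg d v) : HomV deg (d + k) (M.mulVec v) := by
  intro s hs
  have hs' : ∑ j, M s j * v j ≠ 0 := hs
  obtain ⟨j, _, hj⟩ := Finset.exists_ne_zero_of_sum_ne_zero hs'
  have h1 := hM s j (left_ne_zero_of_mul hj)
  have h2 := hv j (right_ne_zero_of_mul hj)
  omega

theorem homV_act (S : Sys K Q B) (q : Q) {d : ℤ} {v : B → K} (hv : HomV S.deg d v) :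
    HomV S.deg (d + 1) ((S.act q).mulVec v) :=
  homV_mulVec (fun s s' h => S.hdeg q s s' h) hv

theorem e_mul_g {e g : Matrix B B K} (he : e * e = e) (hg : e * g * e = g) : e * g = g := by
  have : e * (e * g * e) = e * g * e := by
    rw [← mul_assoc, ← mul_assoc, he]
  rwa [hg] at this

theorem e_fix {e g : Matrix B B K} (he : e * e = e) (hg : e * g * e = g) (v : B → K) :
    e.mulVec (g.mulVec v) = g.mulVec v := by
  rw [Matrix.mulVec_mulVec, e_mul_g he hg]

/-- range of the multiplication is monotone in `P` -/
theorem range_mono (S : Sys K Q B) {P P' : Submodule K Q} (h : P' ≤ P)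
    (C : Submodule K (B → K)) :
    LinearMap.range (mulMap S P' C) ≤ LinearMap.range (mulMap S P C) := by
  rintro _ ⟨x, rfl⟩
  induction x using TensorProduct.induction_on with
  | zero => rw [map_zero]; exact Submodule.zero_mem _
  | tmul p v =>
    refine ⟨(⟨(p : Q), h p.2⟩ : P) ⊗ₜ[K] v, ?_⟩
    rw [mulMap_tmul, mulMap_tmul]
  | add x y hx hy => rw [map_add]; exact Submodule.add_mem _ hx hy

theorem prod_comm_g (S : Sys K Q B) {P : Submodule K Q} {g : Matrix B B K} (hg : Com S P g) :
    ∀ l : List Q, (∀ p ∈ l, p ∈ P) →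
      (l.map (fun p => S.act p)).prod * g = g * (l.map (fun p => S.act p)).prod := by
  intro l
  induction l with
  | nil => intro _; simp
  | cons a l ih =>
    intro h
    rw [List.map_cons, List.prod_cons, mul_assoc, ih (fun p hp => h p (List.mem_cons_of_mem _ hp)),
      ← mul_assoc, hg a (h a List.mem_cons_self), mul_assoc]

end basic

theorem bze_core {K Q B : Type} [Field K] [AddCommGroup Q] [Module K Q]
    [FiniteDimensional K Q] [Fintype B] [DecidableEq B] (S : Sys K Q B) (ι : Type) [Fintype ι]
    (ev : ι → (Q →ₗ[K] K)) (e : Matrix B B K) (b : ℤ)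
    (he : e * e = e)
    (hlow : ∀ d : ℤ, d < b → ∀ v, HomV S.deg d v → e.mulVec v = v → v = 0)
    (hstar : ∀ P : Submodule K Q, P ≠ ⊥ → P ≠ ⊤ → StarP S ev e P (b + 1)) :
    ∀ (n : ℕ) (P : Submodule K Q), Module.finrank K P = n → P ≠ ⊤ →
      ∀ v, HomV S.deg (b + 1) v → e.mulVec v = v → AnnP S P v →
        v ∈ LinearMap.range (mulMap S P (Cd S e b)) := by
  intro n
  induction n with
  | zero =>
    intro P hP _ v _ _ hann
    have h := hann [] (by simp) (by simp [hP])
    simp only [List.map_nil, List.prod_nil, Matrix.one_mulVec] at h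
    rw [h]
    exact Submodule.zero_mem _
  | succ n ih =>
    intro P hP hPt v hv hev hann
    have hPb : P ≠ ⊥ := by
      rintro rfl
      simp at hP
    obtain ⟨g, hg, hsum⟩ := hstar P hPb hPt
    have hex : ∀ c, ∃ q : Q, ¬ P ≤ LinearMap.ker (ev c) → q ∈ P ∧ ev c q = 1 := by
      intro c
      by_cases hc : P ≤ LinearMap.ker (ev c)
      · exact ⟨0, fun h => absurd hc h⟩
      · obtain ⟨p, hp, hp'⟩ := Set.not_subset.1 hc
        have hne : ev c p ≠ 0 := fun h => hp' (LinearMap.mem_ker.2 h)
        refine ⟨(ev c p)⁻¹ • p, fun _ => ⟨P.smul_mem _ hp, ?_⟩⟩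
        rw [map_smul, smul_eq_mul, inv_mul_cancel₀ hne]
    choose q hq using hex
    have hv2 := hsum q hq v hv hev
    rw [hv2]
    refine Submodule.sum_mem _ fun c _ => ?_
    obtain ⟨hgd, hgc, hge, hg0⟩ := hg c
    by_cases hc : P ≤ LinearMap.ker (ev c)
    · have h0 := hg0 hc
      rw [h0]
      simp [Tr]
    · obtain ⟨hqP, hq1⟩ := hq c hc
      have hfix := e_fix he hge
      have t1 : (g c).mulVec v = 0 :=
        hlow (b + 1 + -2) (by omega) _ (homV_mulVec hgd hv) (hfix v)
      have ht : (Tr S (q c) (g c)).mulVec v =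
          (S.act (q c)).mulVec ((g c).mulVec ((S.act (q c)).mulVec v)) +
          (g c).mulVec ((S.act (q c)).mulVec ((S.act (q c)).mulVec v)) := by
        unfold Tr
        rw [Matrix.add_mulVec, Matrix.add_mulVec]
        simp only [← Matrix.mulVec_mulVec]
        rw [t1]
        simp
      rw [ht]
      refine Submodule.add_mem _ ?_ ?_
      · -- the middle term
        have hw1 : HomV S.deg b ((g c).mulVec ((S.act (q c)).mulVec v)) := by
          have := homV_mulVec hgd (homV_act S (q c) hv)
          have e1 : b + 1 + 1 + -2 = b := by ring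
          rwa [e1] at this
        have hw : (g c).mulVec ((S.act (q c)).mulVec v) ∈ Cd S e b :=
          ⟨hw1, hfix _⟩
        refine ⟨(⟨q c, hqP⟩ : P) ⊗ₜ[K]
          (⟨(g c).mulVec ((S.act (q c)).mulVec v), hw⟩ : Cd S e b), ?_⟩
        rw [mulMap_tmul]
      · -- the last term
        have hfr := finrank_inf_ker P (ev c) (q c) hqP hq1
        have hPc : Module.finrank K (P ⊓ LinearMap.ker (ev c) : Submodule K Q) = n := by omega
        have hPct : P ⊓ LinearMap.ker (ev c) ≠ ⊤ := by
          intro h
          apply hPt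
          rw [eq_top_iff, ← h]
          exact inf_le_left
        have hw1 : HomV S.deg (b + 1)
            ((g c).mulVec ((S.act (q c)).mulVec ((S.act (q c)).mulVec v))) := by
          have := homV_mulVec hgd (homV_act S (q c) (homV_act S (q c) hv))
          have e1 : b + 1 + 1 + 1 + -2 = b + 1 := by ring
          rwa [e1] at this
        have hann2 : AnnP S (P ⊓ LinearMap.ker (ev c))
            ((g c).mulVec ((S.act (q c)).mulVec ((S.act (q c)).mulVec v))) := by
          intro l hl hlen
          have e1 : ((l.map (fun p => S.act p)).prod).mulVec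
              ((g c).mulVec ((S.act (q c)).mulVec ((S.act (q c)).mulVec v))) =
              (g c).mulVec ((((l ++ [q c, q c]).map (fun p => S.act p)).prod).mulVec v) := by
            rw [List.map_append, List.prod_append]
            simp only [List.map_cons, List.map_nil, List.prod_cons, List.prod_nil, mul_one]
            rw [Matrix.mulVec_mulVec _ _ (g c), prod_comm_g S hgc l hl]
            simp only [← Matrix.mulVec_mulVec]
          rw [e1, hann (l ++ [q c, q c])]
          · exact Matrix.mulVec_zero _
          · intro p hp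
            rcases List.mem_append.1 hp with h | h
            · exact (hl p h).1
            · simp only [List.mem_cons, List.not_mem_nil, or_false, or_self] at h
              rw [h]; exact hqP
          · rw [List.length_append, hlen]
            simp only [List.length_cons, List.length_nil]
            omega
        have h4 := ih (P ⊓ LinearMap.ker (ev c)) hPc hPct _ hw1 (hfix _) hann2
        exact range_mono S inf_le_left _ h4

theorem bze : Pool.Agent.ABC3.BZEStmt := by
  intro K Q B _ _ _ _ _ _ _ S ι _ ev e b he _ _ hlow hstar P hP v hv hev hann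
  exact bze_core S ι ev e b he hlow hstar _ P rfl hP v hv hev hann

end Pool.Agent.ABC3.H53
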